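import Mathlib
import Pool.Agent.N290.RK.Stm2

/-!
# Project RK (helper290), part XC: functions with prescribed modulus, assembly (helper40)
-/

set_option autoImplicit false

open Complex MeasureTheory Set Filter Topology
open scoped ENNReal

namespace Pool.Agent.N40.RK

open Pool.Agent.N290.RJ Pool.Agent.N290.RK

theorem XC_of (d : ℕ) (h1 : R1) (h2 : R2) (hF : XF d) (hX : XX d) (hQ : XQ d) : XC d := by
  intro K ε₁ ε₃ hK hε₁ hε
  obtain ⟨C₁, hC₁, hR1⟩ := h1 K hK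
  obtain ⟨ε₂, hε₂⟩ : ∃ ε₂, ε₂ = (ε₁ + ε₃) / 2 := ⟨_, rfl⟩
  obtain ⟨φ, L₁, φ1, hL₁, φ2, φ3, φ4, φ5, φ6⟩ := h2 ε₁ ε₂ hε₁ (by linarith)
  obtain ⟨χ, L₂, χ1, hL₂, χ2, χ3, χ4, χ5, χ6⟩ := h2 ε₂ ε₃ (by linarith) (by linarith)
  obtain ⟨L, hL, hLL₁, hLL₂⟩ : ∃ L : ℝ, 1 ≤ L ∧ L₁ ≤ L ∧ L₂ ≤ L :=
    ⟨max (max L₁ L₂) 1, le_max_right _ _, (le_max_left _ _).trans (le_max_left _ _),
      (le_max_right _ _).trans (le_max_left _ _)⟩
  obtain ⟨A, hA⟩ : ∃ A, A = 256 * L := ⟨_, rfl⟩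
  obtain ⟨C, hC, hCC₁⟩ : ∃ C : ℝ, 1 ≤ C ∧ C₁ ≤ C := ⟨max C₁ 1, le_max_right _ _, le_max_left _ _⟩
  obtain ⟨C₃, hC₃, hX3⟩ := hX K C A L
  obtain ⟨C₄, hC₄, hQ4⟩ := hQ K C A L
  refine ⟨max C₃ C₄, lt_max_of_lt_left hC₃, ?_⟩
  intro f ω f1 f2 slow pos f3
  obtain ⟨h, a1, a2, a3, a4⟩ := hR1 ω slow
  have D : Dat d K C A L ε₂ φ χ h ω f :=
    { hK := hK
      hC := hC
      hL := hL
      hA := hA.ge
      slow := slow
      pos := pos
      h1 := a1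
      h2 := a2
      h3 := fun t ht ht1 => by
        obtain ⟨b1, b2⟩ := a3 t ht ht1
        exact ⟨b1, b2.trans (mul_le_mul_of_nonneg_right hCC₁ (pos t ht).le)⟩
      h4 := fun t ht ht1 => by
        obtain ⟨b1, b2⟩ := a3 t ht ht1
        exact (a4 t ht ht1).trans (mul_le_mul_of_nonneg_right hCC₁ ((pos t ht).le.trans b1))
      φ1 := φ1
      φ2 := φ2
      φ3 := fun w => (φ5 w).trans hLL₁
      φ4 := fun w => (φ6 w).trans hLL₁
      φ5 := φ4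
      χ1 := χ1
      χ2 := χ2
      χ3 := fun w => (χ5 w).trans hLL₂
      χ5 := χ3
      f1 := f1
      f2 := f2
      f3 := f3 }
  refine ⟨Xj φ χ A h f, Pj φ A h f, fun k => ?_⟩
  obtain ⟨x1, x2⟩ := hX3 ε₂ φ χ h ω f D k
  obtain ⟨p1, p2⟩ := hQ4 ε₂ φ χ h ω f D k
  refine ⟨x1, p1, fun z hz => ?_⟩
  obtain ⟨x3, x4⟩ := x2 z hz
  obtain ⟨p3, p4, p5⟩ := p2 z hz
  obtain ⟨s1, -, s2, -⟩ := hF K C A L ε₂ φ χ h ω f D k z hz
  have hN : 0 < 1 - N z := sub_pos.2 hz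
  have hω : 0 < ω (1 - N z) := pos _ hN
  have m3 : C₃ ≤ max C₃ C₄ := le_max_left _ _
  have m4 : C₄ ≤ max C₃ C₄ := le_max_right _ _
  refine ⟨x3.trans m3, p3.trans m4, ?_, ?_, ?_, fun ξ => ?_⟩
  · intro hb
    unfold Xj
    rw [χ4 _ hb]
    simp
  · intro hb
    unfold Xj lj lam
    rw [χ3 _ (hb.trans (by linarith)), φ3 _ hb, norm_mul, norm_mul, mul_comm I, norm_exp_ofReal_mul_I,
      mul_one, Complex.norm_real, Complex.norm_real, norm_one, mul_one, Real.norm_eq_abs]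
    refine le_trans ?_ (le_abs_self _)
    nlinarith [sq_nonneg (al A h k z)]
  · refine p4.trans ?_
    have h5 : 0 ≤ ω (1 - N z) * (st k z / uu z (rad k)) := by positivity
    calc C₄ * ω (1 - N z) * (st k z / uu z (rad k))
        = C₄ * (ω (1 - N z) * (st k z / uu z (rad k))) := by ring
      _ ≤ max C₃ C₄ * (ω (1 - N z) * (st k z / uu z (rad k))) := mul_le_mul_of_nonneg_right m4 h5
      _ = _ := by ring
  · obtain ⟨x5, x6⟩ := x4 ξ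
    have p6 := p5 ξ
    have hlen := len_nonneg z ξ
    have h6 : C₃ * ω (1 - N z) ^ 2 * len z ξ ≤ max C₃ C₄ * ω (1 - N z) ^ 2 * len z ξ := by
      gcongr
    refine ⟨x5.trans h6, x6.trans h6, p6.trans ?_⟩
    have h7 : 0 ≤ ω (1 - N z) * uu z (rad k) ^ 2 * len z ξ := by positivity
    calc C₄ * ω (1 - N z) * uu z (rad k) ^ 2 * len z ξ
        = C₄ * (ω (1 - N z) * uu z (rad k) ^ 2 * len z ξ) := by ring
      _ ≤ max C₃ C₄ * (ω (1 - N z) * uu z (rad k) ^ 2 * len z ξ) :=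
          mul_le_mul_of_nonneg_right m4 h7
      _ = _ := by ring

end Pool.Agent.N40.RK
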